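import Pool.Agent.Q270.GcdA

/-!
# The common divisors of `b ^ m` and `⌊β ⌊α b ^ m⌋ ^ 2⌋` are small
-/

set_option autoImplicit false

namespace Pool.Agent.Results.MP_28dc30_nt.IteratedGcdSmall

/-- **Main theorem.** For every base `b ≥ 2`, all irrational real algebraic numbers `α`, `β` and
every `ε > 0`, the greatest common divisor of `⌊β ⌊α b ^ m⌋ ^ 2⌋` and `b ^ m` is smaller than
`b ^ (ε m)` for all sufficiently large `m`. -/
theorem result (b : ℕ) (hb : 2 ≤ b) (α β : ℝ) (hα : IsAlgebraic ℚ α) (hα' : Irrational α)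
    (hβ : IsAlgebraic ℚ β) (hβ' : Irrational β) (ε : ℝ) (hε : 0 < ε) :
    ∃ M : ℕ, ∀ m : ℕ, M ≤ m →
      (Int.gcd ⌊β * (⌊α * (b : ℝ) ^ m⌋ : ℝ) ^ 2⌋ ((b : ℤ) ^ m) : ℝ) < (b : ℝ) ^ (ε * m) :=
  Pool.Agent.Q270.Gs.mainA b hb α β hα hα' hβ hβ' ε hε

end Pool.Agent.Results.MP_28dc30_nt.IteratedGcdSmall
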